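import Pool.Agent.Helper60.FF.KD
import Pool.Agent.Helper14.BSC.Stmts2

/-!
# Birational sections over function fields: Part III (transfer to all primes)

Proofs: /team-store/f3_blueprint.md
-/

set_option autoImplicit false

namespace Pool.Agent.Helper18.FF3

open Polynomial Pool.Agent.Helper14.BSC Pool.Agent.Helper60.FF

/-! ## A. The transfer -/

section

variable {F k Ω : Type} [Field F] [Field k] [Field Ω] [Algebra k Ω] [Algebra (RatFunc F) k]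

/-- the norm of the Kummer class of `x` is `r` up to constants -/
def NC (D : Sec k Ω) (x : LL D) (r : RatFunc F) : Prop :=
  ∀ m : ℕ, 0 < m → ∃ (e : k) (g : LL D), e ≠ 0 ∧ x = algebraMap k (LL D) e * g ^ m ∧
    ∃ (b : F) (z : RatFunc F), b ≠ 0 ∧ z ≠ 0 ∧
      Algebra.norm (RatFunc F) e = r * (RatFunc.C b * z ^ m)

/-- an element of `F(u)` as an element of the fixed field -/
noncomputable def cc (D : Sec k Ω) (c : RatFunc F) : LL D := algebraMap k (LL D) (algebraMap (RatFunc F) k c)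

/-- the norms of the classes of `(t - c) / (t - c')` are given by `ρ`, up to constants -/
def RB (D : Sec k Ω) (t : LL D) (ρ : Polynomial (RatFunc F)) : Prop :=
  ∀ c c' : RatFunc F, ρ.eval c ≠ 0 → ρ.eval c' ≠ 0 →
    NC D ((t - cc D c) / (t - cc D c')) (ρ.eval c / ρ.eval c')

/-- `F` is algebraically closed in `k` -/
def AC (F k : Type) [Field F] [Field k] [Algebra (RatFunc F) k] : Prop :=
  ∀ a : k, (∃ G : Polynomial F, G ≠ 0 ∧ G.eval₂ ((algebraMap (RatFunc F) k).comp RatFunc.C) a = 0) →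
    ∃ b : F, a = algebraMap (RatFunc F) k (RatFunc.C b)

end

/-- BET: product formula, comparison of two embeddings. -/
def ST_BET : Prop :=
  ∀ (F k Ω : Type) [Field F] [Field k] [Field Ω] [Algebra k Ω] [CharZero k] [IsAlgClosed Ω]
    [Algebra (RatFunc F) k] [FiniteDimensional (RatFunc F) k] (D : Sec k Ω) (p : ℕ) [Fact p.Prime]
    (T T' : TS k (RatFunc F) p) (P : ∀ i, Place D p (T.σ i)) (P' : ∀ i, Place D p (T'.σ i)),
    (∀ a : F, T.j (RatFunc.C a) = T'.j (RatFunc.C a)) → ∀ (x : LL D) (r : RatFunc F), r ≠ 0 →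
    NC D x r → ∀ (hx : ∀ i, x ∈ (P i).C) (hx' : ∀ i, x ∈ (P' i).C),
    (∀ i, (P i).φ ⟨x, hx i⟩ ≠ 0) → (∀ i, (P' i).φ ⟨x, hx' i⟩ ≠ 0) →
    (∏ i, (P i).φ ⟨x, hx i⟩) * T'.j r = (∏ i, (P' i).φ ⟨x, hx' i⟩) * T.j r

/-- VAL: the polynomial with roots the finite values of `t`. -/
def ST_VAL : Prop :=
  ∀ (k Ω : Type) [Field k] [Field Ω] [Algebra k Ω] (D : Sec k Ω)
    (k₁ : Type) [Field k₁] [Algebra k₁ k] (p : ℕ) [Fact p.Prime] (T : TS k k₁ p)
    (P : ∀ i, Place D p (T.σ i)) (t : LL D), (∀ c : k, t ≠ algebraMap k (LL D) c) →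
    ∃ χ : Polynomial ℂ_[p], χ ≠ 0 ∧ χ.natDegree ≤ T.n ∧
      (∀ (i : Fin T.n) (h : t ∈ (P i).C), χ.eval ((P i).φ ⟨t, h⟩) = 0) ∧
      ∀ c c' : k₁, χ.eval (T.j c) ≠ 0 → χ.eval (T.j c') ≠ 0 →
        ∃ hx : ∀ i, (t - algebraMap k (LL D) (algebraMap k₁ k c)) /
            (t - algebraMap k (LL D) (algebraMap k₁ k c')) ∈ (P i).C,
          (∀ i, (P i).φ ⟨_, hx i⟩ ≠ 0) ∧
          (∏ i, (P i).φ ⟨_, hx i⟩) * χ.eval (T.j c') = χ.eval (T.j c)

/-- SHA: translations of `F(u)`. -/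
def ST_SHA : Prop :=
  ∀ (F : Type) [Field F] (a : F), ∃ s : RatFunc F →+* RatFunc F,
    (∀ x : F, s (RatFunc.C x) = RatFunc.C x) ∧ s RatFunc.X = RatFunc.X + RatFunc.C a

/-- END: pure algebra. -/
def ST_END : Prop :=
  ∀ (F K : Type) [Field F] [CharZero F] [Field K] [CharZero K] (n : ℕ) (j : ℕ → (RatFunc F →+* K))
    (ρ : Polynomial (RatFunc F)) (χ : ℕ → Polynomial K),
    (∀ (a : ℕ) (x : F), j a (RatFunc.C x) = j 0 (RatFunc.C x)) →
    (∀ a : ℕ, j a RatFunc.X = j 0 RatFunc.X + (a : K)) → ρ ≠ 0 →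
    (∀ a, χ a ≠ 0 ∧ (χ a).natDegree ≤ n) →
    (∀ (a a' : ℕ) (c c' : RatFunc F), ρ.eval c ≠ 0 → ρ.eval c' ≠ 0 →
      (χ a).eval (j a c) ≠ 0 → (χ a).eval (j a c') ≠ 0 →
      (χ a').eval (j a' c) ≠ 0 → (χ a').eval (j a' c') ≠ 0 →
      (χ a).eval (j a c) * j a (ρ.eval c') * ((χ a').eval (j a' c') * j a' (ρ.eval c)) =
        (χ a).eval (j a c') * j a (ρ.eval c) * ((χ a').eval (j a' c) * j a' (ρ.eval c'))) →
    ∀ (a : ℕ) (x : K), (χ a).eval x = 0 → (ρ.map (j a)).eval x = 0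

/-- TRF: the transfer: all finite values of `t` at all places over all primes are roots of `ρ`. -/
def ST_TRF : Prop :=
  ∀ (F k Ω : Type) [Field F] [CharZero F] [Field k] [Field Ω] [Algebra k Ω] [CharZero k]
    [IsAlgClosed Ω] [Algebra (RatFunc F) k] [FiniteDimensional (RatFunc F) k] (D : Sec k Ω)
    (t : LL D) (ρ : Polynomial (RatFunc F)), (∀ c : k, t ≠ algebraMap k (LL D) c) → ρ ≠ 0 →
    RB D t ρ → RootFin D t (ρ.map (algebraMap (RatFunc F) k))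

/-! ## B. From the output of Part II to `RB` -/

section

/-- the map `F(u) → A(u)` -/
noncomputable def mp {F A : Type} [Field F] [Field A] (ι : F →+* A) : RatFunc F →+* RatFunc A :=
  RatFunc.mapRingHom (Polynomial.mapRingHom ι)
    (nonZeroDivisors_le_comap_nonZeroDivisors_of_injective _ (Polynomial.map_injective ι ι.injective))

/-- the link between the `p`-adic data and the section: `H m c` is the norm of the Kummer class of `t - c` -/
structure Link {F k Ω : Type} [Field F] [Field k] [Field Ω] [Algebra k Ω] [Algebra (RatFunc F) k]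
    (D : Sec k Ω) (t : LL D) {p : ℕ} [Fact p.Prime] {n : ℕ} (K : KD p n) where
  ι : F →+* K.A
  alg : ∀ a : K.A, ∃ G : Polynomial F, G ≠ 0 ∧ G.eval₂ ι a = 0
  nrm : ∀ (m : ℕ) (c : RatFunc F), 0 < m → ∃ (e : k) (g : LL D), e ≠ 0 ∧
    t - cc D c = algebraMap k (LL D) e * g ^ m ∧
    K.H m (mp ι c) = mp ι (Algebra.norm (RatFunc F) e)

end

/-- MPW: a rational function whose values are `m`-th powers has orders divisible by `m`. -/
def ST_MPW : Prop :=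
  ∀ (p : ℕ) [Fact p.Prime] (A : Subfield ℂ_[p]), (A : Set ℂ_[p]).Countable →
    (∀ a ∈ A, IsAlgebraic ℚ_[p] a) → IsAlgClosed A →
    ∀ (E : IntermediateField ℚ_[p] ℂ_[p]), FiniteDimensional ℚ_[p] E → ∀ (m : ℕ), 0 < m →
    ∀ θ : RatFunc A, θ ≠ 0 →
    (∀ E' : IntermediateField ℚ_[p] ℂ_[p], FiniteDimensional ℚ_[p] E' → E ≤ E' → ∀ τ ∈ E', τ ∉ A →
      ∃ w ∈ E', ev A τ θ = w ^ m) →
    ∀ v : A, (m : ℤ) ∣ ordv A v θ

/-- KDR: the norms of the classes are given by `ρ` up to constants. -/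
def ST_KDR : Prop :=
  ∀ (p n : ℕ) [Fact p.Prime] (K : KD p n) (ρ : Polynomial (RatFunc K.A)), ρ ≠ 0 →
    (∀ τ : ℂ_[p], IsAlgebraic ℚ_[p] τ → τ ∉ K.A →
      ∃ r : ℂ_[p], r ≠ 0 ∧ ∀ j, (K.χ τ).coeff j = r * ev K.A τ (ρ.coeff j)) →
    ∀ (m : ℕ), 0 < m → ∀ c c' : RatFunc K.A, ρ.eval c ≠ 0 → ρ.eval c' ≠ 0 →
      ∃ (b : K.A) (z : RatFunc K.A), b ≠ 0 ∧ z ≠ 0 ∧
        K.H m c * ρ.eval c' = K.H m c' * ρ.eval c * (RatFunc.C b * z ^ m)

/-- KPC: a rational function which is a constant times an `m`-th power for all `m` is constant. -/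
def ST_KPC : Prop :=
  ∀ (A : Type) [Field A] (h : RatFunc A), h ≠ 0 →
    (∀ m : ℕ, 0 < m → ∃ (b : A) (z : RatFunc A), h = RatFunc.C b * z ^ m) → ∃ b : A, h = RatFunc.C b

/-- GFX: rational functions over `A` fixed by all automorphisms of `A` over `F`. -/
def ST_GFX : Prop :=
  ∀ (F A : Type) [Field F] [CharZero F] [Field A] [IsAlgClosed A] (ι : F →+* A),
    (∀ a : A, ∃ G : Polynomial F, G ≠ 0 ∧ G.eval₂ ι a = 0) → ∀ x : RatFunc A,
    (∀ g : A →+* A, g.comp ι = ι → mp g x = x) → ∃ y : RatFunc F, x = mp ι y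

/-- GDS: Galois descent of `ρ`. -/
def ST_GDS : Prop :=
  ∀ (F A : Type) [Field F] [CharZero F] [Field A] [IsAlgClosed A] (ι : F →+* A),
    (∀ a : A, ∃ G : Polynomial F, G ≠ 0 ∧ G.eval₂ ι a = 0) →
    ∀ (ρ : Polynomial (RatFunc A)) (h : ℕ → RatFunc F → RatFunc F), ρ ≠ 0 →
    (∀ m c, 0 < m → ρ.eval (mp ι c) ≠ 0 → h m c ≠ 0) →
    (∀ m : ℕ, 0 < m → ∀ c c' : RatFunc F, ρ.eval (mp ι c) ≠ 0 → ρ.eval (mp ι c') ≠ 0 →
      ∃ (b : A) (z : RatFunc A), b ≠ 0 ∧ z ≠ 0 ∧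
        mp ι (h m c) * ρ.eval (mp ι c') = mp ι (h m c') * ρ.eval (mp ι c) * (RatFunc.C b * z ^ m)) →
    ∃ (ρ₀ : Polynomial (RatFunc F)) (r : RatFunc A), r ≠ 0 ∧ ρ = C r * ρ₀.map (mp ι)

/-- DES: descent of `m`-th powers up to constants. -/
def ST_DES : Prop :=
  ∀ (F A : Type) [Field F] [CharZero F] [Field A] [IsAlgClosed A] (ι : F →+* A),
    (∀ a : A, ∃ G : Polynomial F, G ≠ 0 ∧ G.eval₂ ι a = 0) → ∀ (m : ℕ), 0 < m →
    ∀ h : RatFunc F, h ≠ 0 → (∃ (b : A) (z : RatFunc A), mp ι h = RatFunc.C b * z ^ m) →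
      ∃ (b : F) (z : RatFunc F), b ≠ 0 ∧ z ≠ 0 ∧ h = RatFunc.C b * z ^ m

/-- RBX: the relation `RB` for a polynomial over `F(u)`. -/
def ST_RBX : Prop :=
  ∀ (F k Ω : Type) [Field F] [CharZero F] [Field k] [Field Ω] [Algebra k Ω] [CharZero k]
    [IsAlgClosed Ω] [Algebra (RatFunc F) k] [FiniteDimensional (RatFunc F) k] (D : Sec k Ω)
    (t : LL D), (∀ c : k, t ≠ algebraMap k (LL D) c) → ∀ (p n : ℕ) [Fact p.Prime] (K : KD p n),
    Link (F := F) D t K → ∀ (ρ : Polynomial (RatFunc K.A)), ρ ≠ 0 →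
    (∀ τ : ℂ_[p], IsAlgebraic ℚ_[p] τ → τ ∉ K.A →
      ∃ r : ℂ_[p], r ≠ 0 ∧ ∀ j, (K.χ τ).coeff j = r * ev K.A τ (ρ.coeff j)) →
    ∃ ρ₀ : Polynomial (RatFunc F), ρ₀ ≠ 0 ∧ RB D t ρ₀

/-! ## C. Conclusion -/

/-- PRM: suitable primes. -/
def ST_PRM : Prop := ∀ n : ℕ, 0 < n → ∃ p : ℕ, PP p n

/-- PI: Part I, the `p`-adic data of a section over a finite extension of `F(u)`. -/
def ST_PI : Prop :=
  ∀ (F k Ω : Type) [Field F] [CharZero F] [Field k] [Field Ω] [Algebra k Ω] [CharZero k]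
    [IsAlgClosed Ω] [Algebra (RatFunc F) k] [FiniteDimensional (RatFunc F) k],
    (⊤ : IntermediateField ℚ F).FG → AC F k → ∀ (D : Sec k Ω) (t : LL D),
    (∀ c : k, t ≠ algebraMap k (LL D) c) → ∀ (p : ℕ) [Fact p.Prime],
    PP p (Module.finrank (RatFunc F) k) →
    ∃ K : KD p (Module.finrank (RatFunc F) k), Nonempty (Link (F := F) D t K)

/-- MDL: a field of positive transcendence degree is finite over some `F(u)` with `F` algebraically
closed in it. -/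
def ST_MDL : Prop :=
  ∀ (k : Type) [Field k] [CharZero k], (⊤ : IntermediateField ℚ k).FG →
    (∃ x : k, Transcendental ℚ x) →
    ∃ (F : Type) (_ : Field F) (_ : CharZero F) (_ : Algebra (RatFunc F) k),
      FiniteDimensional (RatFunc F) k ∧ (⊤ : IntermediateField ℚ F).FG ∧ AC F k

/-- RTF: all finite values of every nonconstant element of the fixed field are roots of a polynomial. -/
def ST_RTF : Prop :=
  ∀ (k Ω : Type) [Field k] [Field Ω] [Algebra k Ω] [CharZero k] [IsAlgClosed Ω],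
    (⊤ : IntermediateField ℚ k).FG → (∃ x : k, Transcendental ℚ x) → ∀ (D : Sec k Ω) (t : LL D),
    (∀ c : k, t ≠ algebraMap k (LL D) c) → ∃ G : Polynomial k, G ≠ 0 ∧ RootFin D t G

/-- RTF from the modules -/
theorem rtf_of (hM : ST_MAIN) (hP : ST_PRM) (hI : ST_PI) (hL : ST_MDL) (hR : ST_RBX) (hT : ST_TRF) :
    ST_RTF := by
  intro k Ω _ _ _ _ _ hfg htr D t ht
  obtain ⟨F, _, _, _, hfin, hF, hac⟩ := hL k hfg htr
  obtain ⟨p, hp⟩ := hP (Module.finrank (RatFunc F) k) Module.finrank_pos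
  have : Fact p.Prime := ⟨hp.prime⟩
  obtain ⟨K, ⟨L⟩⟩ := hI F k Ω hF hac D t ht p hp
  obtain ⟨ρ, hρ, _, hρ2⟩ := hM p _ hp K
  obtain ⟨ρ₀, h0, h1⟩ := hR F k Ω D t ht p _ K L ρ hρ hρ2
  refine ⟨ρ₀.map (algebraMap (RatFunc F) k), ?_, hT F k Ω D t ρ₀ ht h0 h1⟩
  intro h
  exact h0 ((Polynomial.map_eq_zero _).1 h)

end Pool.Agent.Helper18.FF3
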